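import Pool.Agent.Helper98_CC.Stmts

/-!
CC, module GOODB: the block condition for the chains containing the complement.
-/

open scoped BigOperators

noncomputable section

namespace Pool.Agent.Helper17_CC

open Pool.Agent.Helper51_AWC Pool.Agent.Helper79_WRA Pool.Agent.Helper98_CC

variable {ℓ : ℕ} [hp : Fact ℓ.Prime] {G : Type} [Group G]

instance : NeZero ℓ := ⟨hp.out.ne_zero⟩

/-! ### the group theory -/

theorem dia_f (t : Wreath G Unit (Cl ℓ)) (i : ZMod ℓ) : (dia ℓ G t).f i = t.f () := rfl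

theorem dia_s (t : Wreath G Unit (Cl ℓ)) : (dia ℓ G t).s = t.s := rfl

theorem dia_inj : Function.Injective (dia ℓ G) := by
  intro x y h
  apply Wreath.ext
  · funext u
    have := congrArg (fun z : Gam ℓ G => z.f 0) h
    exact this
  · exact congrArg (fun z : Gam ℓ G => z.s) h

theorem mem_range_dia {z : Gam ℓ G} : z ∈ Set.range (dia ℓ G) ↔ ∀ i, z.f i = z.f 0 := by
  constructor
  · rintro ⟨t, rfl⟩ i
    rfl
  · intro h
    refine ⟨⟨fun _ => z.f 0, z.s⟩, ?_⟩
    apply Wreath.ext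
    · funext i
      exact (h i).symm
    · rfl

/-- the coordinate of the base group -/
def p1 (ℓ : ℕ) (G : Type) [Group G] : Wreath G Unit (Cl ℓ) →* G where
  toFun t := t.f ()
  map_one' := rfl
  map_mul' _ _ := rfl

/-- the subgroup `R × C_ℓ` of the wreath product -/
def dR (ℓ : ℕ) {G : Type} [Group G] (R : Subgroup G) : Subgroup (Gam ℓ G) :=
  (R.comap (p1 ℓ G)).map (dia ℓ G)

theorem mem_dR {R : Subgroup G} {z : Gam ℓ G} : z ∈ dR ℓ R ↔ ∃ r ∈ R, ∀ i, z.f i = r := by
  constructor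
  · rintro ⟨t, ht, rfl⟩
    exact ⟨t.f (), ht, fun i => rfl⟩
  · rintro ⟨r, hr, h⟩
    refine ⟨⟨fun _ => r, z.s⟩, hr, ?_⟩
    apply Wreath.ext
    · funext i
      exact (h i).symm
    · rfl

theorem cl_pow (s : Cl ℓ) : s ^ ℓ = 1 := by
  apply Multiplicative.toAdd.injective
  rw [toAdd_pow, toAdd_one, nsmul_eq_mul, ZMod.natCast_self, zero_mul]

theorem dR_pgroup {R : Subgroup G} (hR : IsPGroup ℓ R) : IsPGroup ℓ (dR ℓ R) := by
  apply IsPGroup.map
  apply IsPGroup.comap_of_ker_isPGroup hR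
  rintro ⟨t, ht⟩
  refine ⟨1, ?_⟩
  apply Subtype.ext
  have h1 : t = Wreath.top t.s := by
    apply Wreath.ext
    · funext u
      exact ht
    · rfl
  show t ^ ℓ ^ 1 = 1
  rw [pow_one, h1, ← map_pow, cl_pow, map_one]

theorem dR_mono {R S : Subgroup G} (h : R ≤ S) : dR ℓ R ≤ dR ℓ S :=
  Subgroup.map_mono (Subgroup.comap_mono h)

theorem conj_dR (t : Wreath G Unit (Cl ℓ)) (R : Subgroup G) :
    conjS (dia ℓ G t) (dR ℓ R) = dR ℓ (conjS (t.f ()) R) := by
  ext x
  rw [mem_conjS, mem_dR, mem_dR]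
  constructor
  · rintro ⟨r, hr, h⟩
    refine ⟨t.f () * r * (t.f ())⁻¹, ?_, ?_⟩
    · rw [mem_conjS]
      have : (t.f ())⁻¹ * (t.f () * r * (t.f ())⁻¹) * t.f () = r := by group
      rw [this]; exact hr
    · intro i
      have h1 := h (t.s⁻¹ • i)
      simp only [Wreath.mul_f, Wreath.inv_f, dia_f, Wreath.inv_s, dia_s, inv_inv,
        smul_inv_smul] at h1
      rw [← h1]; group
  · rintro ⟨r, hr, h⟩
    rw [mem_conjS] at hr
    refine ⟨_, hr, ?_⟩
    intro i
    simp only [Wreath.mul_f, Wreath.inv_f, dia_f, Wreath.inv_s, dia_s, inv_inv]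
    rw [h]

theorem dR_inj {R S : Subgroup G} (h : dR ℓ R = dR ℓ S) : R = S := by
  ext r
  have h1 : ∀ T : Subgroup G, dia ℓ G ⟨fun _ => r, 1⟩ ∈ dR ℓ T ↔ r ∈ T := by
    intro T
    rw [mem_dR]
    constructor
    · rintro ⟨s, hs, h⟩
      have : r = s := h 0
      rw [this]; exact hs
    · intro hr
      exact ⟨r, hr, fun i => rfl⟩
  rw [← h1 R, ← h1 S, h]

open Classical in
/-- the chain of the wreath product -/
def chn (ℓ : ℕ) {G : Type} [Group G] (v : Finset (Unit → Subgroup G)) :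
    Finset (Subgroup (Gam ℓ G)) := v.image (fun R => dR ℓ (R ()))

theorem mem_stab_chn {v : Finset (Unit → Subgroup G)} (hv : (fun _ => ⊥) ∈ v) {z : Gam ℓ G} :
    z ∈ stab (chn ℓ v) ↔ (∀ i, z.f i = z.f 0) ∧ z.f 0 ∈ colStab v () := by
  classical
  rw [mem_stab, mem_colStab]
  constructor
  · intro h
    have h0 : ∀ i, z.f i = z.f 0 := by
      intro i
      have h1 := h (dR ℓ (⊥ : Subgroup G)) (Finset.mem_image.2 ⟨_, hv, rfl⟩)
      -- the element of the complement moving 0 to i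
      have h2 : z * Wreath.top (Multiplicative.ofAdd i) * z⁻¹ ∈ dR ℓ (⊥ : Subgroup G) := by
        rw [← h1, mem_conjS]
        have : z⁻¹ * (z * Wreath.top (Multiplicative.ofAdd i) * z⁻¹) * z =
            Wreath.top (Multiplicative.ofAdd i) := by group
        rw [this, mem_dR]
        exact ⟨1, Subgroup.one_mem _, fun j => rfl⟩
      rw [mem_dR] at h2
      obtain ⟨r, hr, h3⟩ := h2
      rw [Subgroup.mem_bot] at hr
      have h4 := h3 i
      rw [hr, Wreath.conj_f, Wreath.top_f, mul_one, mul_inv_eq_one] at h4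
      rw [h4]
      congr 1
      rw [Wreath.top_s, mul_inv_cancel_comm, cl_smul]
      simp
    refine ⟨h0, ?_⟩
    obtain ⟨t, rfl⟩ := mem_range_dia.2 h0
    intro R hR
    have h1 := h _ (Finset.mem_image_of_mem _ hR)
    rw [conj_dR] at h1
    exact dR_inj h1
  · rintro ⟨h0, h1⟩ D hD
    obtain ⟨t, rfl⟩ := mem_range_dia.2 h0
    obtain ⟨R, hR, rfl⟩ := Finset.mem_image.1 hD
    show conjS (dia ℓ G t) (dR ℓ (R ())) = dR ℓ (R ())
    rw [conj_dR]
    congr 1
    exact h1 R hR

theorem chn_pgroup [Finite G] {v : Finset (Unit → Subgroup G)}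
    (hv : v ∈ chainsOn (boxes ℓ G Unit) (fun _ => ⊥)) : ∀ D ∈ chn ℓ v, IsPGroup ℓ D := by
  classical
  intro D hD
  obtain ⟨R, hR, rfl⟩ := Finset.mem_image.1 hD
  apply dR_pgroup
  exact (mem_psub.1 (mem_boxes.1 ((mem_chainsOn.1 hv).1 hR) ())).2

theorem chn_chain [Finite G] {v : Finset (Unit → Subgroup G)}
    (hv : v ∈ chainsOn (boxes ℓ G Unit) (fun _ => ⊥)) :
    IsChain (· ≤ ·) (chn ℓ v : Set (Subgroup (Gam ℓ G))) := by
  classical
  intro D hD E hE hne
  obtain ⟨R, hR, rfl⟩ := Finset.mem_image.1 hD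
  obtain ⟨S, hS, rfl⟩ := Finset.mem_image.1 hE
  have h := (mem_chainsOn.1 hv).2.2
  rcases chain_total h hR hS with h1 | h1
  · left; exact dR_mono (h1 ())
  · right; exact dR_mono (h1 ())

/-! ### the characters -/

section chars

variable [Finite G]

theorem cls_fun {H : Subgroup G} {a : G → ℂ} (ha : a ∈ IrrS H) {g : G} (hg : g ∈ H) (y : G) :
    a (g * y * g⁻¹) = a y := by
  by_cases hy : y ∈ H
  · exact irr_conj ha.2 ⟨y, hy⟩ ⟨g, hg⟩
  · rw [ha.1 y hy, ha.1]
    intro h
    apply hy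
    have := H.mul_mem (H.mul_mem (H.inv_mem hg) h) hg
    have h1 : g⁻¹ * (g * y * g⁻¹) * g = y := by group
    rwa [h1] at this

theorem topSt_eq (v : Finset (Unit → Subgroup G)) (α : Unit → G → ℂ) :
    topSt (Cl ℓ) v α = ⊤ := by
  rw [eq_top_iff]
  intro h _
  rw [mem_topSt]
  intro j
  refine ⟨1, ?_, ?_⟩
  · intro R _
    rw [conjS_one]
  · intro y
    rw [one_mul, inv_one, mul_one]

theorem eta_eq (hext : ExtStmt) {v : Finset (Unit → Subgroup G)} {α : Unit → G → ℂ}
    (hα : IsChars v α) (lam : Cl ℓ → ℂ) (t : Wreath G Unit (Cl ℓ)) :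
    eta v α lam t = α () (t.f ()) * lam t.s := by
  classical
  have hE : IsExt (Cl ℓ) v α (ext (Cl ℓ) v α) := by
    have h := hext G Unit (Cl ℓ) v α hα
    unfold ext
    rw [dif_pos h]
    exact h.choose_spec
  unfold eta
  congr 1
  by_cases ht : t ∈ stX (Cl ℓ) v α
  · have hB : IsBase t.s ({()} : Finset Unit) := by
      intro j
      refine ⟨(), ⟨Finset.mem_singleton.2 rfl, ?_⟩, ?_⟩
      · exact MulAction.mem_orbit_self _
      · intro b _
        rfl
    have := hE.value t ht {()} hB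
    rw [this, Finset.prod_singleton, Function.minimalPeriod_eq_one_of_subsingleton, pow_one]
  · rw [hE.mem.1 t ht]
    symm
    apply (hα ()).1
    intro hg
    apply ht
    rw [mem_stX]
    refine ⟨?_, ?_⟩
    · intro R hR j
      exact mem_colStab.1 hg R hR
    · intro j y
      exact cls_fun (hα ()) hg y

open Classical in
/-- the character of the stabiliser of the chain, extended by zero -/
def AA (a : G → ℂ) (lam : Cl ℓ → ℂ) : Gam ℓ G → ℂ := fun z =>
  if z ∈ Set.range (dia ℓ G) then a (z.f 0) * lam z.s else 0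

theorem AA_dia (a : G → ℂ) (lam : Cl ℓ → ℂ) (t : Wreath G Unit (Cl ℓ)) :
    AA a lam (dia ℓ G t) = a (t.f ()) * lam t.s := by
  unfold AA
  rw [if_pos ⟨t, rfl⟩]
  rfl

theorem AA_one (a : G → ℂ) (lam : Cl ℓ → ℂ) : AA (ℓ := ℓ) a lam 1 = a 1 * lam 1 := by
  rw [← map_one (dia ℓ G), AA_dia]
  rfl

/-- the stabiliser of the chain as a product -/
def eHom (v : Finset (Unit → Subgroup G)) (hv : (fun _ => ⊥) ∈ v) :
    (colStab v () : Subgroup G) × Cl ℓ →* stab (chn ℓ v) where
  toFun x := ⟨⟨fun _ => x.1, x.2⟩, (mem_stab_chn hv).2 ⟨fun _ => rfl, x.1.2⟩⟩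
  map_one' := rfl
  map_mul' _ _ := rfl

theorem eHom_bij (v : Finset (Unit → Subgroup G)) (hv : (fun _ => ⊥) ∈ v) :
    Function.Bijective (eHom (ℓ := ℓ) v hv) := by
  constructor
  · intro x y h
    have h1 : (eHom (ℓ := ℓ) v hv x : Gam ℓ G) = (eHom (ℓ := ℓ) v hv y : Gam ℓ G) :=
      congrArg Subtype.val h
    apply Prod.ext
    · apply Subtype.ext
      exact congrArg (fun z : Gam ℓ G => z.f 0) h1
    · exact congrArg (fun z : Gam ℓ G => z.s) h1
  · rintro ⟨z, hz⟩
    obtain ⟨h1, h2⟩ := (mem_stab_chn hv).1 hz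
    refine ⟨(⟨z.f 0, h2⟩, z.s), ?_⟩
    apply Subtype.ext
    apply Wreath.ext
    · funext i
      exact (h1 i).symm
    · rfl

theorem AA_mem {v : Finset (Unit → Subgroup G)} (hv : (fun _ => ⊥) ∈ v) {a : G → ℂ}
    {lam : Cl ℓ → ℂ} (ha : a ∈ IrrS (colStab v ())) (hl : lam ∈ Irr (Cl ℓ)) :
    AA a lam ∈ IrrS (stab (chn ℓ v)) := by
  classical
  constructor
  · intro z hz
    unfold AA
    split_ifs with h
    · rw [ha.1, zero_mul]
      intro h2
      exact hz ((mem_stab_chn hv).2 ⟨mem_range_dia.1 h, h2⟩)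
    · rfl
  · let e : (colStab v () : Subgroup G) × Cl ℓ ≃* stab (chn ℓ v) :=
      MulEquiv.ofBijective (eHom v hv) (eHom_bij v hv)
    have := Fintype.ofFinite (colStab v () : Subgroup G)
    have := Fintype.ofFinite (Cl ℓ)
    have := Fintype.ofFinite (stab (chn ℓ v) : Subgroup (Gam ℓ G))
    have h1 := prodChar_mem ha.2 hl
    have h2 := irr_comp_equiv e.symm h1
    have h3 : (fun h : stab (chn ℓ v) => AA a lam (h : Gam ℓ G)) =
        fun g => prodChar (fun h : (colStab v () : Subgroup G) => a h) lam (e.symm g) := by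
      funext z
      obtain ⟨x, rfl⟩ := e.surjective z
      rw [e.symm_apply_apply]
      have h4 : ((e x : stab (chn ℓ v)) : Gam ℓ G) = dia ℓ G ⟨fun _ => x.1, x.2⟩ := rfl
      rw [h4, AA_dia]
      rfl
    rw [h3]
    exact h2

theorem val_eta (hext : ExtStmt) {v : Finset (Unit → Subgroup G)} {α : Unit → G → ℂ}
    (hα : IsChars v α) (lam : Cl ℓ → ℂ) (z : Gam ℓ G) :
    val (clas (dia ℓ G) z) (eta v α lam) = omega (MonoidHom.id _) (AA (α ()) lam) z := by
  classical
  have := Fintype.ofFinite (Gam ℓ G)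
  have := Fintype.ofFinite (Wreath G Unit (Cl ℓ))
  rw [val_eq, omega_eq]
  congr 1
  · apply Fintype.sum_of_injective (dia ℓ G) dia_inj
    · intro x hx
      unfold AA
      rw [if_neg hx]
      simp
    · intro t
      rw [eta_eq hext hα, AA_dia]
      unfold clas
      by_cases h : IsConj z (dia ℓ G t)
      · rw [if_pos h, if_pos (by exact h), one_mul]
      · rw [if_neg h, if_neg (by exact h), zero_mul]
  · rw [eta_eq hext hα, AA_one]
    rfl

end chars

/-! ### conjugacy in the base group -/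

section conj

theorem conj_base {y : ZMod ℓ → G} {z : Gam ℓ G} :
    IsConj (Wreath.base y : Gam ℓ G) z ↔
      z.s = 1 ∧ ∃ t : Cl ℓ, ∀ i, IsConj (y (t⁻¹ • i)) (z.f i) := by
  rw [isConj_iff]
  constructor
  · rintro ⟨c, rfl⟩
    refine ⟨?_, c.s, ?_⟩
    · rw [Wreath.conj_s, Wreath.base_s, mul_one, mul_inv_cancel]
    · intro i
      rw [isConj_iff]
      refine ⟨c.f i, ?_⟩
      rw [Wreath.conj_f, Wreath.base_f, Wreath.base_s, inv_one, mul_one, mul_inv_cancel, one_smul]
  · rintro ⟨hs, t, h⟩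
    simp_rw [isConj_iff] at h
    choose c hc using h
    refine ⟨⟨c, t⟩, ?_⟩
    apply Wreath.ext
    · funext i
      rw [Wreath.conj_f, Wreath.base_f, Wreath.base_s]
      show c i * y (t⁻¹ • i) * (c ((t * 1⁻¹ * t⁻¹) • i))⁻¹ = z.f i
      rw [inv_one, mul_one, mul_inv_cancel, one_smul, hc]
    · rw [Wreath.conj_s, Wreath.base_s, mul_one, mul_inv_cancel, hs]

/-- a function on `ZMod ℓ` that is invariant under a nontrivial rotation is constant -/
theorem const_of_rot {y : ZMod ℓ → G} {t : Cl ℓ} (ht : t ≠ 1)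
    (h : ∀ i, IsConj (y (t⁻¹ • i)) (y i)) (i : ZMod ℓ) : IsConj (y 0) (y i) := by
  have h1 : ∀ n : ℕ, ∀ i, IsConj (y ((t ^ n)⁻¹ • i)) (y i) := by
    intro n
    induction n with
    | zero => intro i; rw [pow_zero, inv_one, one_smul]
    | succ n ih =>
      intro i
      have h2 := ih (t⁻¹ • i)
      have h3 : (t ^ n)⁻¹ • t⁻¹ • i = (t ^ (n + 1))⁻¹ • i := by
        rw [← mul_smul, pow_succ', mul_inv_rev]
      rw [h3] at h2
      exact h2.trans (h i)
  have h2 : ∃ n : ℕ, (t ^ n)⁻¹ • i = 0 := by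
    have ht' : Multiplicative.toAdd t ≠ 0 := fun h => ht (by
      apply Multiplicative.toAdd.injective
      exact h)
    refine ⟨(i / Multiplicative.toAdd t).val, ?_⟩
    rw [cl_smul, toAdd_inv, toAdd_pow, nsmul_eq_mul, ZMod.natCast_val, ZMod.cast_id',
      id_eq, div_mul_cancel₀ _ ht', neg_add_cancel]
  obtain ⟨n, hn⟩ := h2
  have h3 := h1 n i
  rwa [hn] at h3

end conj

/-! ### the values on the base group -/

section values

variable [Finite G]

theorem sum_prod_pi [Fintype G] (F : ZMod ℓ → G → ℂ) :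
    ∑ w : ZMod ℓ → G, ∏ i, F i (w i) = ∏ i, ∑ x, F i x := by
  classical
  rw [Finset.prod_univ_sum, Fintype.piFinset_univ]

open Classical in
theorem val_over [Fintype G] (hext : ExtStmt) {χ : G → ℂ} (hχ : χ ∈ Irr G)
    {χ' : Gam ℓ G → ℂ} (hO : Over ℓ χ χ') (y : ZMod ℓ → G) :
    omega (MonoidHom.id _) χ' (Wreath.base y : Gam ℓ G) =
      (∑ w : ZMod ℓ → G, if IsConj (Wreath.base y : Gam ℓ G) (Wreath.base w) then
        ∏ i, χ (w i) else 0) / χ 1 ^ ℓ := by
  have := Fintype.ofFinite (Gam ℓ G)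
  have hE : IsExt (Cl ℓ) (triv G (ZMod ℓ)) (fun _ => χ)
      (ext (Cl ℓ) (triv G (ZMod ℓ)) (fun _ => χ)) := by
    have h := hext G (ZMod ℓ) (Cl ℓ) (triv G (ZMod ℓ)) (fun _ => χ)
      (isChars_triv.2 fun _ => hχ)
    unfold ext
    rw [dif_pos h]
    exact h.choose_spec
  have hcl : ∀ x y' : Gam ℓ G, clas (MonoidHom.id (Gam ℓ G)) (Wreath.base y) (y' * x * y'⁻¹) =
      clas (MonoidHom.id (Gam ℓ G)) (Wreath.base y) x := by
    intro x y'
    have h1 : IsConj x (y' * x * y'⁻¹) := isConj_iff.2 ⟨y', rfl⟩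
    have h2 : IsConj (Wreath.base y : Gam ℓ G) (MonoidHom.id (Gam ℓ G) (y' * x * y'⁻¹)) ↔
        IsConj (Wreath.base y : Gam ℓ G) (MonoidHom.id (Gam ℓ G) x) :=
      ⟨fun h => h.trans h1.symm, fun h => h.trans h1⟩
    unfold clas
    by_cases h : IsConj (Wreath.base y : Gam ℓ G) (MonoidHom.id (Gam ℓ G) x)
    · rw [if_pos h, if_pos (h2.2 h)]
    · rw [if_neg h, if_neg (fun hc => h (h2.1 hc))]
  have h1 : omega (MonoidHom.id _) χ' (Wreath.base y : Gam ℓ G) =
      val (clas (MonoidHom.id (Gam ℓ G)) (Wreath.base y)) χ' := by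
    rw [omega_eq, val_eq]
    congr 1
    apply Finset.sum_congr rfl
    intro t _
    unfold clas
    by_cases h : IsConj (Wreath.base y : Gam ℓ G) (MonoidHom.id _ t)
    · rw [if_pos h, if_pos h, one_mul]
    · rw [if_neg h, if_neg h, zero_mul]
  have hX : ∀ w : ZMod ℓ → G, et (fun _ : ZMod ℓ => χ) (fun _ : Cl ℓ => (1 : ℂ))
      (Wreath.base w : Gam ℓ G) = ∏ i, χ (w i) := by
    intro w
    show ext (Cl ℓ) (triv G (ZMod ℓ)) (fun _ => χ) (Wreath.base w) * 1 = _
    rw [mul_one, hE.base]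
  rw [h1, hO.2 _ hcl, val_eq]
  congr 1
  · symm
    apply Fintype.sum_of_injective (Wreath.base : (ZMod ℓ → G) →* Gam ℓ G)
      Wreath.base_injective
    · intro x hx
      unfold clas
      rw [if_neg, zero_mul]
      intro h
      apply hx
      have h2 : IsConj (Wreath.base y : Gam ℓ G) x := h
      exact Wreath.mem_base_range.2 (conj_base.1 h2).1
    · intro w
      rw [hX]
      unfold clas
      by_cases h : IsConj (Wreath.base y : Gam ℓ G) (Wreath.base w)
      · rw [if_pos h, if_pos (by exact h), one_mul]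
      · rw [if_neg h, if_neg (by exact h), zero_mul]
  · rw [← map_one (Wreath.base : (ZMod ℓ → G) →* Gam ℓ G), hX]
    rw [Finset.prod_congr rfl (fun i _ => by rw [Pi.one_apply]), Finset.prod_const,
      Finset.card_univ, ZMod.card]

theorem over_const (hext : ExtStmt) {χ : G → ℂ} (hχ : χ ∈ Irr G)
    {χ' : Gam ℓ G → ℂ} (hO : Over ℓ χ χ') {y : ZMod ℓ → G} (hy : ∀ i, IsConj (y 0) (y i)) :
    omega (MonoidHom.id _) χ' (Wreath.base y : Gam ℓ G) =
      omega (MonoidHom.id _) χ (y 0) ^ ℓ := by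
  classical
  have := Fintype.ofFinite G
  rw [val_over hext hχ hO, omega_eq, div_pow]
  congr 1
  have h1 : ∀ w : ZMod ℓ → G, (if IsConj (Wreath.base y : Gam ℓ G) (Wreath.base w) then
      ∏ i, χ (w i) else 0) = ∏ i, (if IsConj (y 0) (w i) then χ (w i) else 0) := by
    intro w
    have h2 : IsConj (Wreath.base y : Gam ℓ G) (Wreath.base w) ↔
        ∀ i ∈ (Finset.univ : Finset (ZMod ℓ)), IsConj (y 0) (w i) := by
      rw [conj_base]
      constructor
      · rintro ⟨-, t, h⟩ i _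
        exact (hy _).trans (h i)
      · intro h
        refine ⟨rfl, 1, ?_⟩
        intro i
        exact (hy _).symm.trans (h i (Finset.mem_univ _))
    rw [Finset.prod_ite_zero]
    by_cases h : IsConj (Wreath.base y : Gam ℓ G) (Wreath.base w)
    · rw [if_pos h, if_pos (h2.1 h)]
    · rw [if_neg h, if_neg (fun hc => h (h2.2 hc))]
  simp_rw [h1]
  rw [sum_prod_pi (fun _ x => if IsConj (y 0) x then χ x else 0), Finset.prod_const,
    Finset.card_univ, ZMod.card]
  rfl

theorem over_nonconst (hext : ExtStmt) {χ : G → ℂ} (hχ : χ ∈ Irr G)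
    {χ' : Gam ℓ G → ℂ} (hO : Over ℓ χ χ') {y : ZMod ℓ → G} (hy : ¬ ∀ i, IsConj (y 0) (y i)) :
    omega (MonoidHom.id _) χ' (Wreath.base y : Gam ℓ G) =
      (ℓ : ℂ) * ∏ i, omega (MonoidHom.id _) χ (y i) := by
  classical
  have := Fintype.ofFinite G
  have := Fintype.ofFinite (Cl ℓ)
  have hcard : Fintype.card (Cl ℓ) = ℓ := by
    rw [← Nat.card_eq_fintype_card]
    have : Nat.card (Cl ℓ) = Nat.card (ZMod ℓ) := rfl
    rw [this, Nat.card_zmod]
  rw [val_over hext hχ hO]
  have h1 : ∀ w : ZMod ℓ → G, (if IsConj (Wreath.base y : Gam ℓ G) (Wreath.base w) then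
      ∏ i, χ (w i) else 0) =
      ∑ t : Cl ℓ, ∏ i, (if IsConj (y (t⁻¹ • i)) (w i) then χ (w i) else 0) := by
    intro w
    simp_rw [Finset.prod_ite_zero]
    by_cases h : IsConj (Wreath.base y : Gam ℓ G) (Wreath.base w)
    · rw [if_pos h]
      obtain ⟨-, t, ht⟩ := conj_base.1 h
      rw [Finset.sum_eq_single t]
      · rw [if_pos]
        intro i _
        exact ht i
      · intro u _ hu
        rw [if_neg]
        intro hc
        apply hy
        apply const_of_rot (t := u⁻¹ * t) (by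
          intro h
          exact hu (inv_mul_eq_one.1 h))
        intro i
        have e1 := ht (u • i)
        have e2 := hc (u • i) (Finset.mem_univ _)
        rw [inv_smul_smul] at e2
        have e3 : (u⁻¹ * t)⁻¹ • i = t⁻¹ • u • i := by
          rw [mul_inv_rev, inv_inv, mul_smul]
        rw [e3]
        exact e1.trans e2.symm
      · intro h
        exact absurd (Finset.mem_univ _) h
    · rw [if_neg h]
      symm
      apply Finset.sum_eq_zero
      intro t _
      rw [if_neg]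
      intro hc
      exact h (conj_base.2 ⟨rfl, t, fun i => hc i (Finset.mem_univ _)⟩)
  simp_rw [h1]
  rw [Finset.sum_comm]
  have h2 : ∀ t : Cl ℓ, ∑ w : ZMod ℓ → G, ∏ i, (if IsConj (y (t⁻¹ • i)) (w i) then
      χ (w i) else 0) = ∏ i, ∑ x, (if IsConj (y i) x then χ x else 0) := by
    intro t
    rw [sum_prod_pi (fun i x => if IsConj (y (t⁻¹ • i)) x then χ x else 0)]
    exact Equiv.prod_comp (MulAction.toPerm t⁻¹)
      (fun i => ∑ x, (if IsConj (y i) x then χ x else 0))
  simp_rw [h2]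
  rw [Finset.sum_const, Finset.card_univ, hcard, nsmul_eq_mul, mul_div_assoc]
  congr 1
  have h3 : ∀ i, omega (MonoidHom.id _) χ (y i) =
      (∑ x, (if IsConj (y i) x then χ x else 0)) / χ 1 := by
    intro i
    rw [omega_eq]
    rfl
  simp_rw [h3]
  rw [Finset.prod_div_distrib, Finset.prod_const, Finset.card_univ, ZMod.card]

theorem omega_AA [Fintype G] (a : G → ℂ) {lam : Cl ℓ → ℂ} (hl : lam 1 ≠ 0)
    (y : ZMod ℓ → G) [DecidablePred fun g => ∀ i, IsConj (y i) g] :
    omega (MonoidHom.id _) (AA a lam) (Wreath.base y : Gam ℓ G) =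
      (∑ g : G, if ∀ i, IsConj (y i) g then a g else 0) / a 1 := by
  classical
  have := Fintype.ofFinite (Gam ℓ G)
  rw [omega_eq, AA_one]
  have h0 : ∑ x : Gam ℓ G, (if IsConj (Wreath.base y : Gam ℓ G) (MonoidHom.id _ x) then
      AA a lam x else 0) = ∑ g : G, (if ∀ i, IsConj (y i) g then a g else 0) * lam 1 := by
    symm
    apply Fintype.sum_of_injective (fun g : G => (Wreath.base (fun _ => g) : Gam ℓ G))
    · intro g h hgh
      exact congrFun (Wreath.base_injective hgh) 0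
    · intro x hx
      by_cases h : IsConj (Wreath.base y : Gam ℓ G) (MonoidHom.id _ x)
      · rw [if_pos h]
        unfold AA
        rw [if_neg]
        intro hr
        apply hx
        have h1 := (conj_base.1 h).1
        refine ⟨x.f 0, ?_⟩
        apply Wreath.ext
        · funext i
          exact (mem_range_dia.1 hr i).symm
        · exact h1.symm
      · rw [if_neg h]
    · intro g
      have h1 : IsConj (Wreath.base y : Gam ℓ G) (MonoidHom.id _ (Wreath.base (fun _ => g))) ↔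
          ∀ i, IsConj (y i) g := by
        show IsConj (Wreath.base y : Gam ℓ G) (Wreath.base (fun _ => g)) ↔ _
        rw [conj_base]
        constructor
        · rintro ⟨-, t, h⟩ i
          have h2 := h (t • i)
          rwa [inv_smul_smul] at h2
        · intro h
          exact ⟨rfl, 1, fun i => h _⟩
      have h2 : AA a lam (Wreath.base (fun _ => g) : Gam ℓ G) = a g * lam 1 :=
        AA_dia a lam ⟨fun _ => g, 1⟩
      by_cases h : ∀ i, IsConj (y i) g
      · rw [if_pos h, if_pos (h1.2 h), h2]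
      · rw [if_neg h, if_neg (fun hc => h (h1.1 hc)), zero_mul]
  rw [h0, ← Finset.sum_mul, mul_div_mul_right _ _ hl]

theorem AA_const (a : G → ℂ) {lam : Cl ℓ → ℂ} (hl : lam 1 ≠ 0)
    {y : ZMod ℓ → G} (hy : ∀ i, IsConj (y 0) (y i)) :
    omega (MonoidHom.id _) (AA a lam) (Wreath.base y : Gam ℓ G) =
      omega (MonoidHom.id _) a (y 0) := by
  classical
  have := Fintype.ofFinite G
  rw [omega_AA a hl, omega_eq]
  congr 1
  apply Finset.sum_congr rfl
  intro g _
  have h1 : (∀ i, IsConj (y i) g) ↔ IsConj (y 0) (MonoidHom.id G g) :=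
    ⟨fun h => h 0, fun h i => (hy i).symm.trans h⟩
  by_cases h : ∀ i, IsConj (y i) g
  · rw [if_pos h, if_pos (h1.1 h)]
  · rw [if_neg h, if_neg (fun hc => h (h1.2 hc))]

theorem AA_nonconst (a : G → ℂ) {lam : Cl ℓ → ℂ} (hl : lam 1 ≠ 0)
    {y : ZMod ℓ → G} (hy : ¬ ∀ i, IsConj (y 0) (y i)) :
    omega (MonoidHom.id _) (AA a lam) (Wreath.base y : Gam ℓ G) = 0 := by
  classical
  have := Fintype.ofFinite G
  rw [omega_AA a hl, Finset.sum_eq_zero, zero_div]
  intro g _
  rw [if_neg]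
  intro h
  exact hy fun i => (h 0).trans (h i).symm

end values

/-- GOODB. -/
theorem goodb (hext : ExtStmt) (hlab : LabelStmt) (heq : EqbStmt) : GoodbStmt := by
  intro ℓ _ M _ hℓ G _ _ hG χ hχ _ χ' hO v hv α hα lam hlam
  classical
  have hv0 : (fun _ => ⊥) ∈ v := (mem_chainsOn.1 hv).2.1
  rw [topSt_eq, mem_IrrS_top] at hlam
  have hl1 : lam 1 ≠ 0 := irr_one_ne hlam
  set A : Gam ℓ G → ℂ := AA (α ()) lam with hA
  have hAm : A ∈ IrrS (stab (chn ℓ v)) := AA_mem hv0 (hα ()) hlam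
  obtain ⟨ψ, hψ, hAψ⟩ := hlab ℓ M hℓ (Gam ℓ G) (chn ℓ v) (chn_pgroup hv) (chn_chain hv) A hAm
  have hint : ∀ z, IsIntegral ℤ (omega (MonoidHom.id (Gam ℓ G)) χ' z) :=
    fun z => omega_integral _ hO.1 z
  have h1 : Good M (clas (dia ℓ G)) (fun g => omega (MonoidHom.id _) χ' g) (eta v α lam) ↔
      ∀ z, labF M A z = labF M χ' z := by
    apply forall_congr'
    intro z
    rw [val_eta hext hα]
    exact (red_eq_iff (omega_IrrS_integral hAm z) (hint z)).symm
  have h2 : (∀ z, labF M A z = labF M χ' z) ↔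
      ∀ y : ZMod ℓ → G, labF M A (Wreath.base y) = labF M χ' (Wreath.base y) := by
    constructor
    · intro h y
      exact h _
    · intro h z
      rw [hAψ]
      rw [hAψ] at h
      exact congrFun (heq ℓ M hℓ G ψ hψ χ' hO.1 h) z
  have hω : ∀ g, IsIntegral ℤ (omega (MonoidHom.id G) χ g) := fun g => omega_integral _ hχ g
  have h3 : ∀ y : ZMod ℓ → G, (∀ i, IsConj (y 0) (y i)) →
      labF M A (Wreath.base y) = labF M (α ()) (y 0) ∧
      labF M χ' (Wreath.base y) = labF M χ (y 0) ^ ℓ := by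
    intro y hy
    constructor
    · show red M _ = red M _
      rw [hA, AA_const _ hl1 hy]
    · show red M _ = red M _ ^ ℓ
      rw [over_const hext hχ hO hy, red_pow (hω _)]
  have h4 : ∀ y : ZMod ℓ → G, (¬ ∀ i, IsConj (y 0) (y i)) →
      labF M A (Wreath.base y) = labF M χ' (Wreath.base y) := by
    intro y hy
    show red M _ = red M _
    rw [hA, AA_nonconst _ hl1 hy, over_nonconst hext hχ hO hy, red_zero,
      red_mul (AI.natCast ℓ) (IsIntegral.prod _ fun i _ => hω _)]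
    have h5 : red M (ℓ : ℂ) = 0 := by
      rw [← red_zero, red_eq_iff (AI.natCast ℓ) isIntegral_zero]
      exact ⟨_, hℓ, by simp⟩
    rw [h5, zero_mul]
  rw [h1, h2]
  constructor
  · intro h g
    obtain ⟨e1, e2⟩ := h3 (fun _ => g) (fun _ => IsConj.refl g)
    rw [← e1, ← e2]
    exact h _
  · intro h y
    by_cases hy : ∀ i, IsConj (y 0) (y i)
    · obtain ⟨e1, e2⟩ := h3 y hy
      rw [e1, e2, h]
    · exact h4 y hy

end Pool.Agent.Helper17_CC
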